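import Mathlib
import Pool.Agent.T9h47.SF.Defs

/-!
# First-order sentences as propositional formulas
-/

set_option autoImplicit false

namespace Pool.Agent.T9h47.SG

open Equiv
open Pool.Agent.T9h47.SF

/-- First-order formulas with relation symbols `r : R` of arity `ar r` and with equality, whose free
variables are among `x_0, ..., x_(m-1)`. -/
inductive Fml {R : Type} (ar : R → ℕ) : ℕ → Type
  | rel {m : ℕ} (r : R) (x : Fin (ar r) → Fin m) : Fml ar m
  | eq {m : ℕ} (i j : Fin m) : Fml ar m
  | neg {m : ℕ} (f : Fml ar m) : Fml ar m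
  | and {m : ℕ} (f f' : Fml ar m) : Fml ar m
  | all {m : ℕ} (f : Fml ar (m + 1)) : Fml ar m

variable {R : Type} {ar : R → ℕ}

/-- Truth of a formula in the structure with universe `A` and relations `I`, where the variable `x_i`
has the value `a i`. -/
def Fml.Sat {A : Type} (I : ∀ r, (Fin (ar r) → A) → Prop) : {m : ℕ} → Fml ar m → (Fin m → A) → Prop
  | _, .rel r x, a => I r (fun i => a (x i))
  | _, .eq i j, a => a i = a j
  | _, .neg f, a => ¬ f.Sat I a
  | _, .and f f', a => f.Sat I a ∧ f'.Sat I a
  | _, .all f, a => ∀ b, f.Sat I (Fin.snoc a b)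

/-- The propositional variables for structures with universe `B`: the atomic sentences `r(b)`. -/
abbrev Vr (ar : R → ℕ) (B : Type) : Type := Σ r : R, (Fin (ar r) → B)

/-- the permutation of the propositional variables given by a permutation of the universe -/
def lv {B : Type} (σ : Perm B) : Perm (Vr ar B) where
  toFun v := ⟨v.1, fun i => σ (v.2 i)⟩
  invFun v := ⟨v.1, fun i => σ⁻¹ (v.2 i)⟩
  left_inv v := by
    show (⟨v.1, fun i => σ⁻¹ (σ (v.2 i))⟩ : Vr ar B) = v
    simp
  right_inv v := by
    show (⟨v.1, fun i => σ (σ⁻¹ (v.2 i))⟩ : Vr ar B) = v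
    simp

/-- The node `g` of the circuit of `P` is the propositional translation, for structures with universe
`B`, of the first-order formula with the values `a i` of the free variables: a universal quantifier
is the conjunction over `B`, and equations are the constants true and false, that is the empty
conjunction and the empty disjunction. -/
def Rep {B : Type} (P : Pf (Vr ar B)) : {m : ℕ} → Fml ar m → (Fin m → B) → P.G → Prop
  | _, .rel r x, a, g => P.gate g = .var ⟨r, fun i => a (x i)⟩
  | _, .eq i j, a, g => (a i = a j ∧ P.gate g = .conj ∅) ∨ (a i ≠ a j ∧ P.gate g = .disj ∅)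
  | _, .neg f, a, g => ∃ h, P.gate g = .neg h ∧ Rep P f a h
  | _, .and f f', a, g => ∃ (S : Finset P.G) (h h' : P.G), P.gate g = .conj S ∧
      (∀ k, k ∈ S ↔ k = h ∨ k = h') ∧ Rep P f a h ∧ Rep P f' a h'
  | _, .all f, a, g => ∃ (S : Finset P.G) (h : B → P.G), P.gate g = .conj S ∧
      (∀ k, k ∈ S ↔ ∃ b, k = h b) ∧ ∀ b, Rep P f (Fin.snoc a b) (h b)

/-- `P` refutes the sentence `φ` in the universe `B`: every sequent has the translation of `φ` on the
right or is obtained by a rule of the sequent calculus from earlier ones, and the empty sequent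
occurs. -/
def RefutesFml {B : Type} (P : Pf (Vr ar B)) (φ : Fml ar 0) : Prop :=
  (∀ l, (∃ g ∈ P.right l, Rep P φ Fin.elim0 g) ∨ P.Rule ∅ l) ∧ ∃ l, P.left l = ∅ ∧ P.right l = ∅

/-- The proof is symmetric with respect to the permutations of the elements of `H`: every permutation
of the universe which fixes all elements outside of `H` extends to an automorphism of the proof. -/
def SymOn {B : Type} (P : Pf (Vr ar B)) (H : Finset B) : Prop :=
  ∀ σ : Perm B, (∀ j, j ∉ H → σ j = j) → ∃ α β, P.Ext (lv σ) α β

end Pool.Agent.T9h47.SG
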