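import Mathlib
import Pool.Agent.T9h47.SG.Defs

/-!
# The quantifier rank of a formula
-/

set_option autoImplicit false

namespace Pool.Agent.T9h47.SG

variable {R : Type} {ar : R → ℕ}

/-- quantifier rank -/
def Fml.qr : {m : ℕ} → Fml ar m → ℕ
  | _, .rel _ _ => 0
  | _, .eq _ _ => 0
  | _, .neg f => f.qr
  | _, .and f f' => max f.qr f'.qr
  | _, .all f => f.qr + 1

end Pool.Agent.T9h47.SG
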