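import Mathlib
import Pool.Agent.T9h47.SG.Defs
import Pool.Agent.T9h47.SF.Supp
import Pool.Agent.T9h47.SF.Val

/-!
# Pseudo-valuations of symmetric circuits on partial embeddings into an infinite structure
-/

set_option autoImplicit false
set_option linter.unusedSectionVars false

namespace Pool.Agent.T9h47.SG

open Finset Equiv Equiv.Perm
open Pool.Agent.T9h47.SF (Gt Pf EvOn lf)

variable {R : Type} {ar : R → ℕ} {A B : Type} [Fintype B] [DecidableEq A] [DecidableEq B]

theorem lf_mul (σ τ : Perm B) : lf (A := A) (σ * τ) = lf σ * lf τ := by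
  ext x <;> rfl

theorem lf_inv (σ : Perm B) : lf (A := A) σ⁻¹ = (lf σ)⁻¹ := by
  ext x <;> rfl

theorem lv_mul (σ τ : Perm B) : lv (ar := ar) (σ * τ) = lv σ * lv τ := rfl

theorem lv_inv (σ : Perm B) : lv (ar := ar) σ⁻¹ = (lv σ)⁻¹ := by
  rw [eq_inv_iff_mul_eq_one, ← lv_mul, inv_mul_cancel]
  rfl

theorem lf_apply (σ : Perm B) (v : A × B) : lf σ v = (v.1, σ v.2) := rfl

/-- moving a partial matching -/
def mv (σ : Perm B) (M : Finset (A × B)) : Finset (A × B) := M.map (lf σ).toEmbedding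

theorem mem_mv {σ : Perm B} {M : Finset (A × B)} {v : A × B} :
    v ∈ mv σ M ↔ ∃ w ∈ M, (w.1, σ w.2) = v := by
  unfold mv
  rw [mem_map]
  rfl

theorem mv_mv (σ τ : Perm B) (M : Finset (A × B)) : mv σ (mv τ M) = mv (σ * τ) M := by
  unfold mv
  rw [lf_mul, Finset.map_map]
  rfl

theorem mv_one (M : Finset (A × B)) : mv 1 M = M := by
  ext v
  rw [mem_mv]
  constructor
  · rintro ⟨w, hw, rfl⟩; exact hw
  · intro h; exact ⟨v, h, rfl⟩

theorem mv_inv_mv (σ : Perm B) (M : Finset (A × B)) : mv σ⁻¹ (mv σ M) = M := by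
  rw [mv_mv, inv_mul_cancel, mv_one]

theorem mv_mv_inv (σ : Perm B) (M : Finset (A × B)) : mv σ (mv σ⁻¹ M) = M := by
  rw [mv_mv, mul_inv_cancel, mv_one]

theorem mv_union (σ : Perm B) (M M' : Finset (A × B)) : mv σ (M ∪ M') = mv σ M ∪ mv σ M' :=
  Finset.map_union _ _

theorem card_mv (σ : Perm B) (M : Finset (A × B)) : (mv σ M).card = M.card := card_map _

/-- the holes of a partial matching -/
def dm (M : Finset (A × B)) : Finset B := M.image Prod.snd

theorem mem_dm {M : Finset (A × B)} {j : B} : j ∈ dm M ↔ ∃ i, (i, j) ∈ M := by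
  unfold dm
  rw [mem_image]
  constructor
  · rintro ⟨⟨i, j'⟩, h, rfl⟩; exact ⟨i, h⟩
  · rintro ⟨i, h⟩; exact ⟨(i, j), h, rfl⟩

theorem card_dm_le (M : Finset (A × B)) : (dm M).card ≤ M.card := card_image_le

theorem mem_dm_mv {σ : Perm B} {M : Finset (A × B)} {j : B} : j ∈ dm (mv σ M) ↔ σ⁻¹ j ∈ dm M := by
  rw [mem_dm, mem_dm]
  constructor
  · rintro ⟨i, hi⟩
    obtain ⟨w, hw, h1⟩ := mem_mv.1 hi
    rw [Prod.mk.injEq] at h1
    refine ⟨w.1, ?_⟩
    rw [← h1.2]
    simpa using hw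
  · rintro ⟨i, hi⟩
    refine ⟨i, mem_mv.2 ⟨_, hi, ?_⟩⟩
    simp

variable (P : Pf (Vr ar B)) (H : Finset B) (e : B → A) (I : ∀ r, (Fin (ar r) → A) → Prop) (d : ℕ)

/-- partial matchings of the holes in `H` with the pigeons which are not matched by `e` -/
def MM (M : Finset (A × B)) : Prop :=
  (∀ p ∈ M, p.2 ∈ H ∧ ∀ j, j ∉ H → e j ≠ p.1) ∧ (∀ p ∈ M, ∀ q ∈ M, p.1 = q.1 → p = q) ∧
    ∀ p ∈ M, ∀ q ∈ M, p.2 = q.2 → p = q

/-- the holes of `M` support the formula `g` -/
def CovG (g : P.G) (M : Finset (A × B)) : Prop :=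
  ∀ σ : Perm B, EvOn (H \ dm M) σ → ∃ α β, P.Ext (lv σ) α β ∧ α g = g

/-- the holes of `M` support the sequent `l` -/
def CovL (l : P.L) (M : Finset (A × B)) : Prop :=
  ∀ σ : Perm B, EvOn (H \ dm M) σ → ∃ α β, P.Ext (lv σ) α β ∧ β l = l

/-- the elements of `A` which correspond to the elements of `B` -/
def Vl (M : Finset (A × B)) (i : A) (j : B) : Prop := (j ∉ H ∧ i = e j) ∨ (i, j) ∈ M

/-- truth of an atomic sentence -/
def Tv (M : Finset (A × B)) (v : Vr ar B) : Prop :=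
  ∃ f : Fin (ar v.1) → A, (∀ i, Vl H e M (f i) (v.2 i)) ∧ I v.1 f

/-- The pseudo-valuation. -/
def val (g : P.G) (M : Finset (A × B)) : Prop :=
  match _hg : P.gate g with
  | .var v => Tv H e I M v
  | .neg h => ∀ M', M'.card ≤ d → CovG P H h M' → MM H e (M ∪ M') → ¬ val h M'
  | .conj S => ∀ h, h ∈ S → ∀ M', M'.card ≤ d → CovG P H h M' → MM H e (M ∪ M') → val h M'
  | .disj S => ∃ h, ∃ _ : h ∈ S, ∃ M', M'.card ≤ d ∧ CovG P H h M' ∧ MM H e (M ∪ M') ∧ val h M'
termination_by P.grank g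
decreasing_by
  all_goals
    apply P.grank_lt
    rw [_hg]
    first
      | rfl
      | assumption

theorem val_var {g : P.G} {v : Vr ar B} (hg : P.gate g = .var v) (M : Finset (A × B)) :
    val P H e I d g M ↔ Tv H e I M v := by
  rw [val]
  split
  · rename_i v' h
    rw [hg] at h
    cases h
    exact Iff.rfl
  all_goals rename_i h; rw [hg] at h; cases h

theorem val_neg {g h : P.G} (hg : P.gate g = .neg h) (M : Finset (A × B)) :
    val P H e I d g M ↔ ∀ M', M'.card ≤ d → CovG P H h M' → MM H e (M ∪ M') →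
      ¬ val P H e I d h M' := by
  rw [val]
  split
  · rename_i h; rw [hg] at h; cases h
  · rename_i h' h
    rw [hg] at h
    cases h
    exact Iff.rfl
  all_goals rename_i h; rw [hg] at h; cases h

theorem val_conj {g : P.G} {S : Finset P.G} (hg : P.gate g = .conj S) (M : Finset (A × B)) :
    val P H e I d g M ↔ ∀ h, h ∈ S → ∀ M', M'.card ≤ d → CovG P H h M' → MM H e (M ∪ M') →
      val P H e I d h M' := by
  rw [val]
  split
  · rename_i h; rw [hg] at h; cases h
  · rename_i h; rw [hg] at h; cases h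
  · rename_i h' h
    rw [hg] at h
    cases h
    exact Iff.rfl
  all_goals rename_i h; rw [hg] at h; cases h

theorem val_disj {g : P.G} {S : Finset P.G} (hg : P.gate g = .disj S) (M : Finset (A × B)) :
    val P H e I d g M ↔ ∃ h, h ∈ S ∧ ∃ M', M'.card ≤ d ∧ CovG P H h M' ∧ MM H e (M ∪ M') ∧
      val P H e I d h M' := by
  rw [val]
  split
  · rename_i h; rw [hg] at h; cases h
  · rename_i h; rw [hg] at h; cases h
  · rename_i h; rw [hg] at h; cases h
  · rename_i h' h
    rw [hg] at h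
    cases h
    simp only [exists_prop]

end Pool.Agent.T9h47.SG
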