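import Mathlib
import Pool.Agent.T9h47.SG.Val

/-!
# The pseudo-valuation is consistent and the rules are sound
-/

set_option autoImplicit false
set_option linter.unusedSectionVars false

namespace Pool.Agent.T9h47.SG

open Finset Equiv Equiv.Perm
open Pool.Agent.T9h47.SF (Gt Pf EvOn lf)

variable {R : Type} {ar : R → ℕ} {A B : Type} [Fintype B] [DecidableEq A] [DecidableEq B]
variable {P : Pf (Vr ar B)} {H : Finset B} {e : B → A} {I : ∀ r, (Fin (ar r) → A) → Prop} {d : ℕ}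

theorem pres {σ : Perm B} (hσ : ∀ j, j ∉ H → σ j = j) {j : B} (hj : j ∈ H) : σ j ∈ H := by
  by_contra h
  have h1 := hσ _ h
  rw [σ.injective h1] at h
  exact h hj

theorem fix_inv {σ : Perm B} (hσ : ∀ j, j ∉ H → σ j = j) : ∀ j, j ∉ H → σ⁻¹ j = j := by
  intro j hj
  rw [Perm.inv_eq_iff_eq, hσ j hj]

theorem evOn_conj {σ τ : Perm B} (hσ : ∀ j, j ∉ H → σ j = j) {M : Finset (A × B)}
    (hτ : EvOn (H \ dm (mv σ M)) τ) : EvOn (H \ dm M) (σ⁻¹ * τ * σ) := by
  refine ⟨fun x hx => ?_, ?_⟩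
  · rw [Perm.mul_apply, Perm.mul_apply, Perm.inv_eq_iff_eq]
    apply hτ.1
    intro h
    rw [mem_sdiff] at h
    apply hx
    rw [mem_sdiff]
    refine ⟨?_, ?_⟩
    · by_contra hxH
      rw [hσ x hxH] at h
      exact hxH h.1
    · intro h2
      apply h.2
      rw [mem_dm_mv]
      simpa using h2
  · rw [Perm.sign_mul, Perm.sign_mul, sign_inv, hτ.2]
    simp

theorem covG_mv {σ : Perm B} (hσ : ∀ j, j ∉ H → σ j = j) {α : Perm P.G} {β : Perm P.L}
    (hext : P.Ext (lv σ) α β) {g : P.G} {M : Finset (A × B)} (h : CovG P H g M) :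
    CovG P H (α g) (mv σ M) := by
  intro τ hτ
  obtain ⟨α', β', h1, h2⟩ := h _ (evOn_conj hσ hτ)
  have h3 := (hext.mul h1).mul hext.inv
  rw [← lv_inv, ← lv_mul, ← lv_mul] at h3
  have h4 : σ * (σ⁻¹ * τ * σ) * σ⁻¹ = τ := by group
  rw [h4] at h3
  refine ⟨_, _, h3, ?_⟩
  simp [Perm.mul_apply, h2]

theorem covL_mv {σ : Perm B} (hσ : ∀ j, j ∉ H → σ j = j) {α : Perm P.G} {β : Perm P.L}
    (hext : P.Ext (lv σ) α β) {l : P.L} {M : Finset (A × B)} (h : CovL P H l M) :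
    CovL P H (β l) (mv σ M) := by
  intro τ hτ
  obtain ⟨α', β', h1, h2⟩ := h _ (evOn_conj hσ hτ)
  have h3 := (hext.mul h1).mul hext.inv
  rw [← lv_inv, ← lv_mul, ← lv_mul] at h3
  have h4 : σ * (σ⁻¹ * τ * σ) * σ⁻¹ = τ := by group
  rw [h4] at h3
  refine ⟨_, _, h3, ?_⟩
  simp [Perm.mul_apply, h2]

theorem MM_mv {σ : Perm B} (hσ : ∀ j, j ∉ H → σ j = j) {M : Finset (A × B)} (h : MM H e M) :
    MM H e (mv σ M) := by
  refine ⟨?_, ?_, ?_⟩
  · intro p hp
    obtain ⟨w, hw, rfl⟩ := mem_mv.1 hp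
    exact ⟨pres hσ (h.1 w hw).1, (h.1 w hw).2⟩
  · intro p hp q hq hpq
    obtain ⟨w, hw, rfl⟩ := mem_mv.1 hp
    obtain ⟨w', hw', rfl⟩ := mem_mv.1 hq
    rw [h.2.1 w hw w' hw' hpq]
  · intro p hp q hq hpq
    obtain ⟨w, hw, rfl⟩ := mem_mv.1 hp
    obtain ⟨w', hw', rfl⟩ := mem_mv.1 hq
    rw [h.2.2 w hw w' hw' (σ.injective hpq)]

theorem MM_sub {M M' : Finset (A × B)} (h : MM H e M) (hM : M' ⊆ M) : MM H e M' :=
  ⟨fun p hp => h.1 p (hM hp), fun p hp q hq => h.2.1 p (hM hp) q (hM hq),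
    fun p hp q hq => h.2.2 p (hM hp) q (hM hq)⟩

theorem MM_union_mv {σ : Perm B} (hσ : ∀ j, j ∉ H → σ j = j) {M M' : Finset (A × B)}
    (h : MM H e (M ∪ M')) : MM H e (mv σ M ∪ mv σ M') := by
  rw [← mv_union]; exact MM_mv hσ h

theorem MM_union_mv' {σ : Perm B} (hσ : ∀ j, j ∉ H → σ j = j) {M M' : Finset (A × B)}
    (h : MM H e (mv σ M ∪ M')) : MM H e (M ∪ mv σ⁻¹ M') := by
  have := MM_mv (fix_inv hσ) h
  rw [mv_union, mv_inv_mv] at this
  exact this

theorem Vl_mv {σ : Perm B} (hσ : ∀ j, j ∉ H → σ j = j) {M : Finset (A × B)} {i : A} {j : B} :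
    Vl H e (mv σ M) i (σ j) ↔ Vl H e M i j := by
  constructor
  · rintro (h | h)
    · left
      have h1 : j ∉ H := fun h' => h.1 (pres hσ h')
      rw [hσ _ h1] at h
      exact h
    · right
      obtain ⟨w, hw, h1⟩ := mem_mv.1 h
      rw [Prod.mk.injEq] at h1
      have : w = (i, j) := Prod.ext h1.1 (σ.injective h1.2)
      exact this ▸ hw
  · rintro (h | h)
    · left
      rw [hσ _ h.1]
      exact h
    · right
      exact mem_mv.2 ⟨(i, j), h, rfl⟩

/-- The pseudo-valuation is symmetric. -/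
theorem val_mv {σ : Perm B} (hσ : ∀ j, j ∉ H → σ j = j) {α : Perm P.G} {β : Perm P.L}
    (hext : P.Ext (lv σ) α β) : ∀ (k : ℕ) (g : P.G), P.grank g ≤ k → ∀ M : Finset (A × B),
    (val P H e I d (α g) (mv σ M) ↔ val P H e I d g M) := by
  have hback : ∀ {g : P.G} {M : Finset (A × B)}, CovG P H (α g) M → CovG P H g (mv σ⁻¹ M) := by
    intro g M h
    have h1 := hext.inv
    rw [← lv_inv] at h1
    have h2 := covG_mv (fix_inv hσ) h1 h
    simpa using h2
  intro k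
  induction k using Nat.strong_induction_on with
  | _ k ih =>
    intro g hg M
    have hgate := hext.1 g
    cases hx : P.gate g with
    | var v =>
      rw [hx] at hgate
      rw [val_var P H e I d hgate, val_var P H e I d hx]
      constructor
      · rintro ⟨f, h1, h2⟩
        refine ⟨f, fun i => ?_, h2⟩
        rw [← Vl_mv (e := e) hσ]
        exact h1 i
      · rintro ⟨f, h1, h2⟩
        refine ⟨f, fun i => ?_, h2⟩
        show Vl H e (mv σ M) (f i) (σ (v.2 i))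
        rw [Vl_mv (e := e) hσ]
        exact h1 i
    | neg h =>
      rw [hx] at hgate
      have hr : P.grank h < P.grank g := P.grank_lt g h (by rw [hx]; rfl)
      rw [val_neg P H e I d hgate, val_neg P H e I d hx]
      constructor
      · intro h1 M' hM' hc hMM hv
        exact h1 (mv σ M') (by rw [card_mv]; exact hM') (covG_mv hσ hext hc)
          (MM_union_mv hσ hMM) ((ih _ (by omega) h le_rfl M').2 hv)
      · intro h1 M' hM' hc hMM hv
        refine h1 (mv σ⁻¹ M') (by rw [card_mv]; exact hM') (hback hc) (MM_union_mv' hσ hMM) ?_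
        rw [← ih _ (by omega) h le_rfl, mv_mv_inv]
        exact hv
    | conj S =>
      rw [hx] at hgate
      have hr : ∀ h ∈ S, P.grank h < P.grank g := fun h hh => P.grank_lt g h (by rw [hx]; exact hh)
      rw [val_conj P H e I d hgate, val_conj P H e I d hx]
      constructor
      · intro h1 h hh M' hM' hc hMM
        rw [← ih _ (by have := hr h hh; omega) h le_rfl]
        exact h1 (α h) (mem_map_of_mem _ hh) (mv σ M') (by rw [card_mv]; exact hM')
          (covG_mv hσ hext hc) (MM_union_mv hσ hMM)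
      · intro h1 h' hh' M' hM' hc hMM
        obtain ⟨h, hh, rfl⟩ := mem_map.1 hh'
        have h2 := h1 h hh (mv σ⁻¹ M') (by rw [card_mv]; exact hM') (hback hc)
          (MM_union_mv' hσ hMM)
        rw [← ih _ (by have := hr h hh; omega) h le_rfl, mv_mv_inv] at h2
        exact h2
    | disj S =>
      rw [hx] at hgate
      have hr : ∀ h ∈ S, P.grank h < P.grank g := fun h hh => P.grank_lt g h (by rw [hx]; exact hh)
      rw [val_disj P H e I d hgate, val_disj P H e I d hx]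
      constructor
      · rintro ⟨h', hh', M', hM', hc, hMM, hv⟩
        obtain ⟨h, hh, rfl⟩ := mem_map.1 hh'
        refine ⟨h, hh, mv σ⁻¹ M', by rw [card_mv]; exact hM', hback hc, MM_union_mv' hσ hMM, ?_⟩
        rw [← ih _ (by have := hr h hh; omega) h le_rfl, mv_mv_inv]
        exact hv
      · rintro ⟨h, hh, M', hM', hc, hMM, hv⟩
        exact ⟨α h, mem_map_of_mem _ hh, mv σ M', by rw [card_mv]; exact hM',
          covG_mv hσ hext hc, MM_union_mv hσ hMM,
          (ih _ (by have := hr h hh; omega) h le_rfl M').2 hv⟩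

/-! ### Extension of partial maps -/

theorem exists_inj {X Y : Type} [DecidableEq X] [DecidableEq Y] (S : Finset X) (T : Finset Y)
    (h : S.card ≤ T.card) (y₀ : Y) : ∃ f : X → Y, (∀ x ∈ S, f x ∈ T) ∧
      ∀ x ∈ S, ∀ x' ∈ S, f x = f x' → x = x' := by
  obtain ⟨φ⟩ : Nonempty ({x // x ∈ S} ↪ {y // y ∈ T}) :=
    Function.Embedding.nonempty_of_card_le (by simpa using h)
  refine ⟨fun x => if hx : x ∈ S then (φ ⟨x, hx⟩).1 else y₀, ?_, ?_⟩
  · intro x hx
    simp only [hx, dif_pos]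
    exact (φ ⟨x, hx⟩).2
  · intro x hx x' hx' h1
    simp only [hx, hx', dif_pos] at h1
    have := φ.injective (Subtype.ext h1)
    exact congrArg Subtype.val this

theorem exists_even_ext (U X : Finset B) (f : B → B) (hX : X ⊆ U) (hf : ∀ x ∈ X, f x ∈ U)
    (hinj : ∀ x ∈ X, ∀ x' ∈ X, f x = f x' → x = x') (hcard : X.card + 2 ≤ U.card) :
    ∃ σ : Perm B, EvOn U σ ∧ ∀ x ∈ X, σ x = f x := by
  classical
  obtain ⟨g, hg⟩ := exists_equiv_extend_of_card_eq (α := {x // x ∈ U}) (β := B) (t := U)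
    (by simp) (s := univ.filter (fun x => x.1 ∈ X)) (f := fun x => f x.1) (by
      intro y hy
      rw [mem_image] at hy
      obtain ⟨x, hx, rfl⟩ := hy
      rw [mem_filter] at hx
      exact hf _ hx.2) (by
      intro x hx y hy hxy
      rw [mem_coe, mem_filter] at hx hy
      exact Subtype.ext (hinj _ hx.2 _ hy.2 hxy))
  obtain ⟨σ, hσ⟩ : ∃ σ : Perm B, σ = ofSubtype (p := fun x => x ∈ U) (g : Perm {x // x ∈ U}) :=
    ⟨_, rfl⟩
  have h1 : ∀ x, x ∉ U → σ x = x := by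
    intro x hx; rw [hσ]; exact ofSubtype_apply_of_not_mem _ hx
  have h2 : ∀ x ∈ X, σ x = f x := by
    intro x hx
    rw [hσ, ofSubtype_apply_of_mem _ (hX hx)]
    exact hg ⟨x, hX hx⟩ (by simpa using hx)
  have h3 : 1 < (U \ X).card := by
    rw [card_sdiff_of_subset hX]; omega
  obtain ⟨a, ha, b, hb, hab⟩ := one_lt_card.1 h3
  rw [mem_sdiff] at ha hb
  rcases Int.units_eq_one_or (sign σ) with h4 | h4
  · exact ⟨σ, ⟨h1, h4⟩, h2⟩
  · refine ⟨σ * swap a b, ⟨?_, ?_⟩, ?_⟩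
    · intro x hx
      rw [Perm.mul_apply, swap_apply_of_ne_of_ne, h1 x hx]
      · rintro rfl; exact hx ha.1
      · rintro rfl; exact hx hb.1
    · rw [Perm.sign_mul, h4, sign_swap hab]; norm_num
    · intro x hx
      rw [Perm.mul_apply, swap_apply_of_ne_of_ne, h2 x hx]
      · rintro rfl; exact ha.2 hx
      · rintro rfl; exact hb.2 hx

/-- Moving a partial matching by an even permutation which fixes a given one. -/
theorem move {M₁ M' N : Finset (A × B)} (h1 : MM H e (M₁ ∪ M')) (hN : MM H e (M₁ ∪ N))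
    (hcard : M₁.card + N.card + M'.card + 2 ≤ H.card) :
    ∃ σ : Perm B, EvOn (H \ dm M₁) σ ∧ MM H e (M₁ ∪ N ∪ mv σ M') := by
  classical
  rcases (dm M').eq_empty_or_nonempty with hemp | ⟨j₀, hj₀⟩
  · refine ⟨1, ⟨fun _ _ => rfl, by simp⟩, ?_⟩
    have : M' = ∅ := by
      rw [eq_empty_iff_forall_notMem]
      intro p hp
      have : p.2 ∈ dm M' := mem_dm.2 ⟨p.1, hp⟩
      rw [hemp] at this
      simp at this
    rw [this, mv_one, union_empty]
    exact hN
  obtain ⟨X, hX⟩ : ∃ X, X = dm M' \ dm M₁ := ⟨_, rfl⟩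
  have hXc : X.card ≤ M'.card := by
    rw [hX]; exact (card_le_card sdiff_subset).trans (card_dm_le _)
  have hpig : ∀ j, ∃ i, j ∈ dm M' → (i, j) ∈ M' := by
    intro j
    by_cases hj : j ∈ dm M'
    · obtain ⟨i, hi⟩ := mem_dm.1 hj
      exact ⟨i, fun _ => hi⟩
    · obtain ⟨i, _⟩ := mem_dm.1 hj₀
      exact ⟨i, fun h => absurd h hj⟩
  choose pig hpig using hpig
  obtain ⟨fr, hfr1, hfr2⟩ := exists_inj X (H \ (dm M₁ ∪ dm N)) (by
    have h2 := le_card_sdiff (dm M₁ ∪ dm N) H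
    have h3 := card_union_le (dm M₁) (dm N)
    have h4 := card_dm_le M₁
    have h5 := card_dm_le N
    omega) j₀
  have hnx : ∀ i, ∃ j, (∃ j', (i, j') ∈ N) → (i, j) ∈ N := by
    intro i
    by_cases h : ∃ j', (i, j') ∈ N
    · obtain ⟨j', hj'⟩ := h
      exact ⟨j', fun _ => hj'⟩
    · exact ⟨j₀, fun h' => absurd h' h⟩
  choose nx hnx using hnx
  obtain ⟨f, hf⟩ : ∃ f : B → B, f = fun j => if ∃ j', (pig j, j') ∈ N then nx (pig j) else fr j :=
    ⟨_, rfl⟩
  have hf1 : ∀ j, (∃ j', (pig j, j') ∈ N) → f j = nx (pig j) := fun j hj => by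
    rw [hf]; simp only [hj, if_true]
  have hf2 : ∀ j, (¬ ∃ j', (pig j, j') ∈ N) → f j = fr j := fun j hj => by
    rw [hf]; simp only [hj, if_false]
  have hXM : ∀ j ∈ X, (pig j, j) ∈ M' ∧ j ∉ dm M₁ := by
    intro j hj
    rw [hX, mem_sdiff] at hj
    exact ⟨hpig j hj.1, hj.2⟩
  have hu1 : ∀ {p}, p ∈ M₁ → p ∈ M₁ ∪ M' := fun h => mem_union_left _ h
  have hu2 : ∀ {p}, p ∈ M' → p ∈ M₁ ∪ M' := fun h => mem_union_right _ h
  have hv1 : ∀ {p}, p ∈ M₁ → p ∈ M₁ ∪ N := fun h => mem_union_left _ h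
  have hv2 : ∀ {p}, p ∈ N → p ∈ M₁ ∪ N := fun h => mem_union_right _ h
  have hpinj : ∀ j ∈ X, ∀ j' ∈ X, pig j = pig j' → j = j' := by
    intro j hj j' hj' h
    have := h1.2.1 _ (hu2 (hXM j hj).1) _ (hu2 (hXM j' hj').1) h
    exact congrArg Prod.snd this
  have hfH : ∀ j ∈ X, f j ∈ H \ dm M₁ := by
    intro j hj
    by_cases hc : ∃ j', (pig j, j') ∈ N
    · rw [hf1 j hc]
      have h2 := hnx _ hc
      rw [mem_sdiff]
      refine ⟨(hN.1 _ (hv2 h2)).1, ?_⟩
      intro h3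
      obtain ⟨i', h4⟩ := mem_dm.1 h3
      have h5 := hN.2.2 _ (hv1 h4) _ (hv2 h2) rfl
      have h6 : i' = pig j := congrArg Prod.fst h5
      rw [h6] at h4
      have h7 := h1.2.1 _ (hu1 h4) _ (hu2 (hXM j hj).1) rfl
      have h8 : nx (pig j) = j := congrArg Prod.snd h7
      rw [h8] at h3
      exact (hXM j hj).2 h3
    · rw [hf2 j hc]
      have := hfr1 j hj
      rw [mem_sdiff, mem_union, not_or] at this
      exact mem_sdiff.2 ⟨this.1, this.2.1⟩
  have hfinj : ∀ j ∈ X, ∀ j' ∈ X, f j = f j' → j = j' := by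
    intro j hj j' hj' h
    by_cases hc : ∃ k, (pig j, k) ∈ N <;> by_cases hc' : ∃ k, (pig j', k) ∈ N
    · rw [hf1 j hc, hf1 j' hc'] at h
      have h2 := hnx _ hc
      have h3 := hnx _ hc'
      rw [← h] at h3
      have h4 := hN.2.2 _ (hv2 h2) _ (hv2 h3) rfl
      exact hpinj j hj j' hj' (congrArg Prod.fst h4)
    · rw [hf1 j hc, hf2 j' hc'] at h
      have h2 := hfr1 j' hj'
      rw [← h, mem_sdiff, mem_union, not_or] at h2
      exact absurd (mem_dm.2 ⟨_, hnx _ hc⟩) h2.2.2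
    · rw [hf2 j hc, hf1 j' hc'] at h
      have h2 := hfr1 j hj
      rw [h, mem_sdiff, mem_union, not_or] at h2
      exact absurd (mem_dm.2 ⟨_, hnx _ hc'⟩) h2.2.2
    · rw [hf2 j hc, hf2 j' hc'] at h
      exact hfr2 j hj j' hj' h
  obtain ⟨σ, hσ1, hσ2⟩ := exists_even_ext (H \ dm M₁) X f (by
      intro j hj
      rw [mem_sdiff]
      exact ⟨(h1.1 _ (hu2 (hXM j hj).1)).1, (hXM j hj).2⟩) hfH hfinj (by
      have h2 := le_card_sdiff (dm M₁) H
      have h3 := card_dm_le M₁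
      omega)
  refine ⟨σ, hσ1, ?_⟩
  -- the new elements
  have hmem : ∀ p ∈ mv σ M', p ∈ M₁ ∪ N ∨ ∃ j ∈ X, p = (pig j, f j) ∧ (∀ k, (pig j, k) ∉ N) ∧
      (∀ k, (pig j, k) ∉ M₁) ∧ f j ∉ dm M₁ ∧ f j ∉ dm N := by
    intro p hp
    obtain ⟨⟨i, j⟩, hw, rfl⟩ := mem_mv.1 hp
    simp only
    by_cases hj : j ∈ dm M₁
    · obtain ⟨i', hi'⟩ := mem_dm.1 hj
      have h2 := h1.2.2 _ (hu1 hi') _ (hu2 hw) rfl
      have h3 : i' = i := congrArg Prod.fst h2
      left
      rw [hσ1.1 j (by rw [mem_sdiff]; exact fun h => h.2 hj), ← h3]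
      exact hv1 hi'
    · have hjX : j ∈ X := by rw [hX, mem_sdiff]; exact ⟨mem_dm.2 ⟨i, hw⟩, hj⟩
      have h2 := h1.2.2 _ (hu2 hw) _ (hu2 (hXM j hjX).1) rfl
      have h3 : i = pig j := congrArg Prod.fst h2
      rw [hσ2 j hjX]
      by_cases hc : ∃ k, (pig j, k) ∈ N
      · left
        rw [hf1 j hc, h3]
        exact hv2 (hnx _ hc)
      · right
        refine ⟨j, hjX, by rw [h3], fun k hk => hc ⟨k, hk⟩, ?_, ?_, ?_⟩
        · intro k hk
          have h4 := h1.2.1 _ (hu1 hk) _ (hu2 (hXM j hjX).1) rfl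
          have h5 : k = j := congrArg Prod.snd h4
          rw [h5] at hk
          exact hj (mem_dm.2 ⟨_, hk⟩)
        · have h4 := hfH j hjX
          rw [mem_sdiff] at h4
          exact h4.2
        · rw [hf2 j hc]
          have h4 := hfr1 j hjX
          rw [mem_sdiff, mem_union, not_or] at h4
          exact h4.2.2
  have hmem' : ∀ p ∈ M₁ ∪ N ∪ mv σ M', p ∈ M₁ ∪ N ∨ ∃ j ∈ X, p = (pig j, f j) ∧
      (∀ k, (pig j, k) ∉ N) ∧ (∀ k, (pig j, k) ∉ M₁) ∧ f j ∉ dm M₁ ∧ f j ∉ dm N := by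
    intro p hp
    rcases mem_union.1 hp with hp | hp
    · exact Or.inl hp
    · exact hmem p hp
  refine ⟨?_, ?_, ?_⟩
  · intro p hp
    rcases hmem' p hp with h2 | ⟨j, hj, rfl, _⟩
    · exact hN.1 p h2
    · have h3 := hfH j hj
      rw [mem_sdiff] at h3
      exact ⟨h3.1, (h1.1 _ (hu2 (hXM j hj).1)).2⟩
  · intro p hp q hq hpq
    rcases hmem' p hp with h2 | ⟨j, hj, rfl, h3, h4, _, _⟩ <;>
      rcases hmem' q hq with h2' | ⟨j', hj', rfl, h3', h4', _, _⟩
    · exact hN.2.1 p h2 q h2' hpq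
    · simp only at hpq
      rcases mem_union.1 h2 with h5 | h5
      · exact absurd (show (pig j', p.2) ∈ M₁ by rw [← hpq]; exact h5) (h4' _)
      · exact absurd (show (pig j', p.2) ∈ N by rw [← hpq]; exact h5) (h3' _)
    · simp only at hpq
      rcases mem_union.1 h2' with h5 | h5
      · exact absurd (show (pig j, q.2) ∈ M₁ by rw [hpq]; exact h5) (h4 _)
      · exact absurd (show (pig j, q.2) ∈ N by rw [hpq]; exact h5) (h3 _)
    · have h5 := hpinj j hj j' hj' hpq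
      rw [h5]
  · intro p hp q hq hpq
    rcases hmem' p hp with h2 | ⟨j, hj, rfl, _, _, h3, h4⟩ <;>
      rcases hmem' q hq with h2' | ⟨j', hj', rfl, _, _, h3', h4'⟩
    · exact hN.2.2 p h2 q h2' hpq
    · simp only at hpq
      rcases mem_union.1 h2 with h5 | h5
      · exact absurd (mem_dm.2 ⟨p.1, by rw [← hpq]; exact h5⟩) h3'
      · exact absurd (mem_dm.2 ⟨p.1, by rw [← hpq]; exact h5⟩) h4'
    · simp only at hpq
      rcases mem_union.1 h2' with h5 | h5
      · exact absurd (mem_dm.2 ⟨q.1, by rw [hpq]; exact h5⟩) h3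
      · exact absurd (mem_dm.2 ⟨q.1, by rw [hpq]; exact h5⟩) h4
    · have h5 := hfinj j hj j' hj' hpq
      rw [h5]

end Pool.Agent.T9h47.SG
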