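import Mathlib
import Pool.Agent.T9h47.SG.Rules
import Pool.Agent.T9h47.SG.QR

/-!
# The lower bound for symmetric refutations of the pigeonhole principle
-/

set_option autoImplicit false
set_option linter.unusedSectionVars false

namespace Pool.Agent.T9h47.SG

open Finset Equiv Equiv.Perm
open Pool.Agent.T9h47.SF (Gt Pf EvOn lf Gt.map_one map_one_emb exists_support)

variable {R : Type} {ar : R → ℕ} {A B : Type} [Fintype B] [DecidableEq A] [DecidableEq B]

section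

variable {P : Pf (Vr ar B)} {H : Finset B} {e : B → A} {I : ∀ r, (Fin (ar r) → A) → Prop} {d : ℕ}

theorem Vl_unique {M : Finset (A × B)} (hMM : MM H e M) {i i' : A} {j : B} (h : Vl H e M i j)
    (h' : Vl H e M i' j) : i = i' := by
  rcases h with h | h <;> rcases h' with h' | h'
  · rw [h.2, h'.2]
  · exact absurd (hMM.1 _ h').1 h.1
  · exact absurd (hMM.1 _ h).1 h'.1
  · exact congrArg Prod.fst (hMM.2.2 _ h _ h' rfl)

theorem Vl_inj (he : ∀ j j', j ∉ H → j' ∉ H → e j = e j' → j = j') {M : Finset (A × B)}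
    (hMM : MM H e M) {i : A} {j j' : B} (h : Vl H e M i j) (h' : Vl H e M i j') : j = j' := by
  rcases h with h | h <;> rcases h' with h' | h'
  · exact he _ _ h.1 h'.1 (h.2.symm.trans h'.2)
  · exact absurd h.2.symm ((hMM.1 _ h').2 _ h.1)
  · exact absurd h'.2.symm ((hMM.1 _ h).2 _ h'.1)
  · exact congrArg Prod.snd (hMM.2.1 _ h _ h' rfl)

theorem cover_pts [Infinite A] {q : ℕ}
    (hsup : ∀ g : P.G, ∃ Δ ⊆ H, Δ.card + q ≤ d ∧
      ∀ σ, EvOn (H \ Δ) σ → ∃ α β, P.Ext (lv σ) α β ∧ α g = g)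
    (g : P.G) {m : ℕ} (hm : m ≤ q) (a : Fin m → B) {N : Finset (A × B)} (hN : MM H e N) :
    ∃ M : Finset (A × B), M.card ≤ d ∧ CovG P H g M ∧ (∀ i, a i ∈ H → a i ∈ dm M) ∧
      MM H e (N ∪ M) := by
  classical
  obtain ⟨Δ, h1, h2, h3⟩ := hsup g
  obtain ⟨M, h4, h5, h6⟩ := cover (d := d) (Δ := Δ ∪ (univ.image a).filter (fun j => j ∈ H))
    (union_subset h1 (fun j hj => (mem_filter.1 hj).2)) (by
      refine (card_union_le _ _).trans ?_
      have h7 : ((univ.image a).filter (fun j => j ∈ H)).card ≤ m := by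
        refine (card_filter_le _ _).trans (card_image_le.trans ?_)
        rw [card_univ, Fintype.card_fin]
      omega) hN
  refine ⟨M, h4, fun σ hσ => h3 σ (hσ.mono (sdiff_subset_sdiff (Subset.refl _)
    (subset_union_left.trans h5))), ?_, h6⟩
  intro i hi
  exact h5 (mem_union_right _ (mem_filter.2 ⟨mem_image_of_mem _ (mem_univ i), hi⟩))

/-- The translation of a first-order formula has the truth value of the formula. -/
theorem rep_val [Infinite A] (hyp : Hyp P H e d) {q : ℕ}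
    (hsup : ∀ g : P.G, ∃ Δ ⊆ H, Δ.card + q ≤ d ∧
      ∀ σ, EvOn (H \ Δ) σ → ∃ α β, P.Ext (lv σ) α β ∧ α g = g) {m : ℕ} (f : Fml ar m) :
    m + f.qr ≤ q → ∀ (a : Fin m → B) (g : P.G), Rep P f a g → ∀ (M : Finset (A × B)),
    M.card ≤ d → CovG P H g M → MM H e M → ∀ b : Fin m → A, (∀ i, Vl H e M (b i) (a i)) →
    (val P H e I d g M ↔ f.Sat I b) := by
  have hd := hyp.hd
  have he := hyp.he
  have compat : ∀ {g : P.G} {M₁ M₂ : Finset (A × B)}, M₁.card ≤ d → M₂.card ≤ d →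
      CovG P H g M₁ → CovG P H g M₂ → MM H e (M₁ ∪ M₂) →
      (val P H e I d g M₁ ↔ val P H e I d g M₂) := fun h1 h2 h3 h4 h5 =>
    val_compat_iff (by omega) h1 h2 h3 h4 h5
  -- the truth value for all partial matchings which are compatible
  have step : ∀ {m : ℕ} {a : Fin m → B} {h : P.G} {M : Finset (A × B)} {b : Fin m → A} {p : Prop},
      m ≤ q → MM H e M → (∀ i, Vl H e M (b i) (a i)) →
      (∀ M' : Finset (A × B), M'.card ≤ d → CovG P H h M' → MM H e (M ∪ M') →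
        (∀ i, Vl H e M' (b i) (a i)) → (val P H e I d h M' ↔ p)) →
      ∀ M' : Finset (A × B), M'.card ≤ d → CovG P H h M' → MM H e (M ∪ M') →
        (val P H e I d h M' ↔ p) := by
    intro m a h M b p hm hMM hb ih M' h1 h2 h3
    obtain ⟨M'', h4, h5, h6, h7⟩ := cover_pts hsup h hm a h3
    rw [compat h1 h4 h2 h5 (MM_sub h7 (union_subset_union subset_union_right (Subset.refl _)))]
    have h8 : MM H e (M ∪ M'') := MM_sub h7 (union_subset_union subset_union_left (Subset.refl _))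
    exact ih M'' h4 h5 h8 (fun i => Vl_compat h8 (hb i) (h6 i))
  have some : ∀ {m : ℕ} {a : Fin m → B} {h : P.G} {M : Finset (A × B)} {b : Fin m → A},
      m ≤ q → MM H e M → (∀ i, Vl H e M (b i) (a i)) →
      ∃ M' : Finset (A × B), M'.card ≤ d ∧ CovG P H h M' ∧ MM H e (M ∪ M') ∧
        ∀ i, Vl H e M' (b i) (a i) := by
    intro m a h M b hm hMM hb
    obtain ⟨M'', h4, h5, h6, h7⟩ := cover_pts hsup h hm a hMM
    exact ⟨M'', h4, h5, h7, fun i => Vl_compat h7 (hb i) (h6 i)⟩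
  induction f with
  | rel r x =>
    intro _ a g hrep M hM hc hMM b hb
    have hrep' : P.gate g = .var ⟨r, fun i => a (x i)⟩ := hrep
    rw [val_var P H e I d hrep']
    show Tv H e I M ⟨r, fun i => a (x i)⟩ ↔ I r (fun i => b (x i))
    constructor
    · rintro ⟨f, h1, h2⟩
      have h3 : f = fun i => b (x i) := funext fun i => Vl_unique hMM (h1 i) (hb (x i))
      rw [h3] at h2
      exact h2
    · intro h
      exact ⟨fun i => b (x i), fun i => hb (x i), h⟩
  | eq i j =>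
    intro _ a g hrep M hM hc hMM b hb
    show _ ↔ b i = b j
    rcases hrep with ⟨h1, h2⟩ | ⟨h1, h2⟩
    · rw [val_conj P H e I d h2]
      refine ⟨fun _ => ?_, fun _ h hh => absurd hh (notMem_empty _)⟩
      have h3 := hb i
      rw [h1] at h3
      exact Vl_unique hMM h3 (hb j)
    · rw [val_disj P H e I d h2]
      constructor
      · rintro ⟨h, hh, _⟩
        exact absurd hh (notMem_empty _)
      · intro h3
        have h4 := hb i
        rw [h3] at h4
        exact absurd (Vl_inj he hMM h4 (hb j)) h1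
  | neg f ih =>
    intro hq a g hrep M hM hc hMM b hb
    obtain ⟨h, h1, h2⟩ := hrep
    have hq' : _ + f.qr ≤ q := hq
    have hm : _ ≤ q := (Nat.le_add_right _ _).trans hq'
    have key := fun M' (x1 : M'.card ≤ d) (x2 : CovG P H h M') (x3 : MM H e (M ∪ M'))
      (x4 : ∀ i, Vl H e M' (b i) (a i)) =>
      ih hq' a h h2 M' x1 x2 (MM_sub x3 subset_union_right) b x4
    rw [val_neg P H e I d h1]
    show _ ↔ ¬ f.Sat I b
    constructor
    · intro h3 h4
      obtain ⟨M', x1, x2, x3, x4⟩ := some (h := h) hm hMM hb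
      exact h3 M' x1 x2 x3 ((key M' x1 x2 x3 x4).2 h4)
    · intro h3 M' x1 x2 x3 h4
      exact h3 ((step hm hMM hb key M' x1 x2 x3).1 h4)
  | and f f' ih ih' =>
    intro hq a g hrep M hM hc hMM b hb
    obtain ⟨S, h, h', h1, h2, h3, h4⟩ := hrep
    have hq1 : _ + f.qr ≤ q := (Nat.add_le_add_left (le_max_left _ _) _).trans hq
    have hq2 : _ + f'.qr ≤ q := (Nat.add_le_add_left (le_max_right _ _) _).trans hq
    have hm : _ ≤ q := (Nat.le_add_right _ _).trans hq1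
    have key := fun M' (x1 : M'.card ≤ d) (x2 : CovG P H h M') (x3 : MM H e (M ∪ M'))
      (x4 : ∀ i, Vl H e M' (b i) (a i)) =>
      ih hq1 a h h3 M' x1 x2 (MM_sub x3 subset_union_right) b x4
    have key' := fun M' (x1 : M'.card ≤ d) (x2 : CovG P H h' M') (x3 : MM H e (M ∪ M'))
      (x4 : ∀ i, Vl H e M' (b i) (a i)) =>
      ih' hq2 a h' h4 M' x1 x2 (MM_sub x3 subset_union_right) b x4
    rw [val_conj P H e I d h1]
    show _ ↔ f.Sat I b ∧ f'.Sat I b
    constructor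
    · intro h5
      constructor
      · obtain ⟨M', x1, x2, x3, x4⟩ := some (h := h) hm hMM hb
        exact (key M' x1 x2 x3 x4).1 (h5 h ((h2 h).2 (Or.inl rfl)) M' x1 x2 x3)
      · obtain ⟨M', x1, x2, x3, x4⟩ := some (h := h') hm hMM hb
        exact (key' M' x1 x2 x3 x4).1 (h5 h' ((h2 h').2 (Or.inr rfl)) M' x1 x2 x3)
    · rintro ⟨h5, h6⟩ k hk M' x1 x2 x3
      rcases (h2 k).1 hk with rfl | rfl
      · exact (step hm hMM hb key M' x1 x2 x3).2 h5
      · exact (step hm hMM hb key' M' x1 x2 x3).2 h6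
  | @all m' f ih =>
    intro hq a g hrep M hM hc hMM b hb
    obtain ⟨S, h, h1, h2, h3⟩ := hrep
    have hq' : m' + 1 + f.qr ≤ q := by
      have : m' + (f.qr + 1) ≤ q := hq
      omega
    have hm : m' + 1 ≤ q := (Nat.le_add_right _ _).trans hq'
    rw [val_conj P H e I d h1]
    show _ ↔ ∀ x, f.Sat I (Fin.snoc b x)
    have snocV : ∀ {N : Finset (A × B)} {x : A} {u : B}, (∀ i, Vl H e N (b i) (a i)) →
        Vl H e N x u → ∀ i, Vl H e N ((Fin.snoc b x : Fin _ → A) i) ((Fin.snoc a u : Fin _ → B) i) := by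
      intro N x u h4 h5 i
      refine Fin.lastCases ?_ (fun i => ?_) i
      · rw [Fin.snoc_last, Fin.snoc_last]; exact h5
      · rw [Fin.snoc_castSucc, Fin.snoc_castSucc]; exact h4 i
    constructor
    · intro h4 x
      obtain ⟨u, N, hN1, hN2, hN3⟩ : ∃ (u : B) (N : Finset (A × B)), M ⊆ N ∧ MM H e N ∧
          Vl H e N x u := by
        rcases exists_pt (by omega) hM hMM x with ⟨u, hu1, hu2⟩ | ⟨u, hu1, hu2⟩
        · exact ⟨u, M, Subset.refl _, hMM, Or.inl ⟨hu1, hu2.symm⟩⟩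
        · exact ⟨u, _, subset_union_left, hu2, Or.inr (by simp)⟩
      have hbN : ∀ i, Vl H e N (b i) (a i) := by
        intro i
        rcases hb i with h | h
        · exact Or.inl h
        · exact Or.inr (hN1 h)
      obtain ⟨M', x1, x2, x3, x4⟩ := some (a := Fin.snoc a u) (h := h u) hm hN2 (snocV hbN hN3)
      exact (ih hq' (Fin.snoc a u) (h u) (h3 u) M' x1 x2 (MM_sub x3 subset_union_right) _ x4).1
        (h4 (h u) ((h2 _).2 ⟨u, rfl⟩) M' x1 x2
          (MM_sub x3 (union_subset_union hN1 (Subset.refl _))))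
    · intro h4 k hk M' x1 x2 x3
      obtain ⟨u, rfl⟩ := (h2 k).1 hk
      obtain ⟨M'', y1, y2, y3, y4⟩ := cover_pts hsup (h u) hm (Fin.snoc a u) x3
      rw [compat x1 y1 x2 y2 (MM_sub y4 (union_subset_union subset_union_right (Subset.refl _)))]
      have h8 : MM H e (M ∪ M'') := MM_sub y4 (union_subset_union subset_union_left (Subset.refl _))
      obtain ⟨x, hx⟩ : ∃ x, Vl H e M'' x u := by
        by_cases hu : u ∈ H
        · have := y3 (Fin.last _)
          rw [Fin.snoc_last] at this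
          obtain ⟨x, hx⟩ := mem_dm.1 (this hu)
          exact ⟨x, Or.inr hx⟩
        · exact ⟨e u, Or.inl ⟨hu, rfl⟩⟩
      refine (ih hq' (Fin.snoc a u) (h u) (h3 u) M'' y1 y2 (MM_sub h8 subset_union_right)
        (Fin.snoc b x) (snocV (fun i => ?_) hx)).2 (h4 x)
      refine Vl_compat h8 (hb i) (fun h9 => ?_)
      have := y3 i.castSucc
      rw [Fin.snoc_castSucc] at this
      exact this h9

theorem no_refutation [Infinite A] (hyp : Hyp P H e d) (φ : Fml ar 0)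
    (hsup : ∀ g : P.G, ∃ Δ ⊆ H, Δ.card + φ.qr ≤ d ∧
      ∀ σ, EvOn (H \ Δ) σ → ∃ α β, P.Ext (lv σ) α β ∧ α g = g)
    (hφ : φ.Sat I Fin.elim0) : ¬ RefutesFml P φ := by
  rintro ⟨h1, l, h2, h3⟩
  have key : ∀ k, ∀ l, P.lrank l ≤ k → Tru P H e I d l := by
    intro k
    induction k using Nat.strong_induction_on with
    | _ k ih =>
      intro l hl
      rcases h1 l with ⟨g, hg, hrep⟩ | hr
      · intro M h4 h5 h6
        obtain ⟨M', x1, x2, x3, x4⟩ := cover_pts hsup g (Nat.zero_le _) Fin.elim0 h6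
        exact Or.inl ⟨g, hg, M', x1, x2, x4, (rep_val hyp hsup φ (by omega) Fin.elim0 g hrep M' x1 x2
          (MM_sub x4 subset_union_right) Fin.elim0 (fun i => i.elim0)).2 hφ⟩
      · exact sound hyp l hr (fun l' hl' => ih (P.lrank l') (by omega) l' le_rfl)
  have hd := hyp.hd
  obtain ⟨M, h4, h5, h6⟩ := hyp.coverL l (N := ∅) (by simp [MM]) (by simp; omega)
  rw [empty_union] at h6
  rcases key _ l le_rfl M h4 h5 h6 with ⟨g, hg, _⟩ | ⟨g, hg, _⟩
  · rw [h3] at hg; simp at hg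
  · rw [h2] at hg; simp at hg

end

theorem lv_one : lv (ar := ar) (1 : Perm B) = 1 := rfl

theorem ext_one (P : Pf (Vr ar B)) : P.Ext (lv (1 : Perm B)) 1 1 := by
  rw [lv_one]
  refine ⟨fun g => ?_, fun l => ?_, fun l => ?_⟩
  · rw [Gt.map_one]; rfl
  · rw [map_one_emb]; rfl
  · rw [map_one_emb]; rfl

/-- the permutations of the elements in `H` with an extension that fixes a formula or a sequent -/
def stb (P : Pf (Vr ar B)) (H : Finset B) (Q : Perm P.G → Perm P.L → Prop) (h1 : Q 1 1)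
    (hm : ∀ α α' β β', Q α β → Q α' β' → Q (α * α') (β * β'))
    (hi : ∀ α β, Q α β → Q α⁻¹ β⁻¹) : Subgroup (Perm B) where
  carrier := {σ | (∀ j, j ∉ H → σ j = j) ∧ ∃ α β, P.Ext (lv σ) α β ∧ Q α β}
  one_mem' := ⟨fun _ _ => rfl, 1, 1, ext_one P, h1⟩
  mul_mem' := by
    rintro σ τ ⟨h1, α, β, h2, h3⟩ ⟨h1', α', β', h2', h3'⟩
    refine ⟨fun j hj => by rw [Perm.mul_apply, h1' j hj, h1 j hj], α * α', β * β', ?_,
      hm _ _ _ _ h3 h3'⟩
    rw [lv_mul]
    exact h2.mul h2'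
  inv_mem' := by
    rintro σ ⟨h1, α, β, h2, h3⟩
    refine ⟨fix_inv h1, α⁻¹, β⁻¹, ?_, hi _ _ h3⟩
    rw [lv_inv]
    exact h2.inv

theorem support {P : Pf (Vr ar B)} {H : Finset B} (hsym : SymOn P H)
    {C : Type} [Fintype C] (act : Perm P.G → Perm P.L → C → C) (x : C)
    (h1 : act 1 1 x = x)
    (hm : ∀ α α' β β' y, act (α * α') (β * β') y = act α β (act α' β' y))
    (r : ℕ) (hr : Fintype.card C < 2 ^ r) (hH : 10 * r + 5 ≤ H.card) :
    ∃ Δ ⊆ H, Δ.card ≤ 10 * r ∧ ∀ σ, EvOn (H \ Δ) σ →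
      ∃ α β, P.Ext (lv σ) α β ∧ act α β x = x := by
  classical
  have hi : ∀ α β, act α β x = x → act α⁻¹ β⁻¹ x = x := by
    intro α β h
    have h2 := hm α⁻¹ α β⁻¹ β x
    rw [inv_mul_cancel, inv_mul_cancel, h1, h] at h2
    exact h2.symm
  obtain ⟨K, hK⟩ : ∃ K : Subgroup (Perm B), K = stb P H (fun α β => act α β x = x) h1
      (fun α α' β β' h h' => by rw [hm, h', h]) hi := ⟨_, rfl⟩
  choose ex ey hex using hsym
  obtain ⟨c, hc⟩ : ∃ c : Perm B → C, c = fun σ => if h : ∀ j, j ∉ H → σ j = j then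
      act (ex σ h) (ey σ h) x else x := ⟨_, rfl⟩
  obtain ⟨Δ, h2, h3, h4⟩ := exists_support K H c (by
    intro σ τ hσ hτ hcc
    have hcσ : c σ = act (ex σ hσ) (ey σ hσ) x := by rw [hc]; exact dif_pos hσ
    have hcτ : c τ = act (ex τ hτ) (ey τ hτ) x := by rw [hc]; exact dif_pos hτ
    rw [hcσ, hcτ] at hcc
    rw [hK]
    refine ⟨?_, (ex σ hσ)⁻¹ * ex τ hτ, (ey σ hσ)⁻¹ * ey τ hτ, ?_, ?_⟩
    · intro j hj
      rw [Perm.mul_apply, hτ j hj, fix_inv hσ j hj]
    · rw [lv_mul, lv_inv]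
      exact (hex σ hσ).inv.mul (hex τ hτ)
    · show act ((ex σ hσ)⁻¹ * ex τ hτ) ((ey σ hσ)⁻¹ * ey τ hτ) x = x
      rw [hm, ← hcc, ← hm, inv_mul_cancel, inv_mul_cancel, h1]) r hr hH
  refine ⟨Δ, h2, h3, fun σ hσ => ?_⟩
  have h5 := h4 σ hσ
  rw [hK] at h5
  exact h5.2

/-- The lower bound. -/
theorem main_gap {A : Type} [Infinite A] (P : Pf (Vr ar B)) (H : Finset B) (φ : Fml ar 0)
    (I : ∀ r, (Fin (ar r) → A) → Prop) (hφ : φ.Sat I Fin.elim0)
    (href : RefutesFml P φ) (hsym : SymOn P H) :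
    2 ^ H.card ≤ 2 ^ (52 + 5 * φ.qr) * P.size ^ 50 := by
  classical
  by_contra hcon
  rw [not_le] at hcon
  have hpos : P.size ≠ 0 := by
    intro h
    obtain ⟨_, l, _⟩ := href
    unfold Pf.size at h
    have h1 : @Fintype.card P.L P.finL = 0 := by omega
    have := (@Fintype.card_eq_zero_iff P.L P.finL).1 h1
    exact this.false l
  obtain ⟨r, hr⟩ : ∃ r, r = Nat.log 2 P.size + 1 := ⟨_, rfl⟩
  have h1 : P.size < 2 ^ r := by rw [hr]; exact Nat.lt_pow_succ_log_self (by norm_num) _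
  have h2 : 2 ^ Nat.log 2 P.size ≤ P.size := Nat.pow_log_le_self 2 hpos
  have h3 : 2 ^ (52 + 5 * φ.qr + Nat.log 2 P.size * 50) < 2 ^ H.card := by
    refine lt_of_le_of_lt ?_ hcon
    rw [pow_add, pow_mul]
    exact Nat.mul_le_mul_left _ (Nat.pow_le_pow_left h2 _)
  have h4 := (Nat.pow_lt_pow_iff_right (by norm_num : 1 < 2)).1 h3
  obtain ⟨e⟩ : Nonempty (B ↪ A) :=
    ⟨(Fintype.equivFin B).toEmbedding.trans (Fin.valEmbedding.trans (Infinite.natEmbedding A))⟩
  have hG : @Fintype.card P.G P.finG < 2 ^ r := lt_of_le_of_lt (Nat.le_add_right _ _) h1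
  have hL : @Fintype.card P.L P.finL < 2 ^ r := lt_of_le_of_lt (Nat.le_add_left _ _) h1
  let _ : Fintype P.G := P.finG
  let _ : Fintype P.L := P.finL
  have hsG : ∀ g : P.G, ∃ Δ ⊆ H, Δ.card ≤ 10 * r ∧
      ∀ σ, EvOn (H \ Δ) σ → ∃ α β, P.Ext (lv σ) α β ∧ α g = g := fun g =>
    support hsym (fun α _ y => α y) g rfl (fun _ _ _ _ _ => rfl) r hG (by omega)
  have hsL : ∀ l : P.L, ∃ Δ ⊆ H, Δ.card ≤ 10 * r ∧
      ∀ σ, EvOn (H \ Δ) σ → ∃ α β, P.Ext (lv σ) α β ∧ β l = l := fun l =>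
    support hsym (fun _ β y => β y) l rfl (fun _ _ _ _ _ => rfl) r hL (by omega)
  have hyp : Hyp P H e (10 * r + φ.qr) := ⟨fun j j' _ _ h => e.injective h, by omega,
    fun g => by
      obtain ⟨Δ, x1, x2, x3⟩ := hsG g
      exact ⟨Δ, x1, by omega, x3⟩,
    fun l => by
      obtain ⟨Δ, x1, x2, x3⟩ := hsL l
      exact ⟨Δ, x1, by omega, x3⟩⟩
  refine no_refutation (I := I) hyp φ ?_ hφ href
  intro g
  obtain ⟨Δ, x1, x2, x3⟩ := hsG g
  exact ⟨Δ, x1, by omega, x3⟩

end Pool.Agent.T9h47.SG
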